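import Pool.Agent.W978.QN.Stm

set_option autoImplicit false

namespace Pool.Agent.W60.QN

open Pool.Agent.W978.QN

/-- sum of the absolute values of the minors -/
noncomputable def FF (b : Fin 3 → Fin 3 → Fin 3 → ℤ) (p : Fin 3 → ℝ) : ℝ :=
  ∑ x : Fin 3 × Fin 3 × Fin 3 × Fin 3, |mnr (mp b p) x.1 x.2.1 x.2.2.1 x.2.2.2|

theorem FF_cont (b : Fin 3 → Fin 3 → Fin 3 → ℤ) : Continuous (FF b) := by
  unfold FF mnr mp
  fun_prop

theorem FF_nonneg (b : Fin 3 → Fin 3 → Fin 3 → ℤ) (p : Fin 3 → ℝ) : 0 ≤ FF b p :=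
  Finset.sum_nonneg fun _ _ => abs_nonneg _

theorem FF_smul (b : Fin 3 → Fin 3 → Fin 3 → ℤ) (t : ℝ) (p : Fin 3 → ℝ) :
    FF b (t • p) = t ^ 2 * FF b p := by
  have hm : ∀ k j, mp b (t • p) k j = t * mp b p k j := by
    intro k j
    unfold mp
    rw [Finset.mul_sum]
    refine Finset.sum_congr rfl fun i _ => ?_
    rw [Pi.smul_apply, smul_eq_mul]
    ring
  unfold FF
  rw [Finset.mul_sum]
  refine Finset.sum_congr rfl fun x _ => ?_
  have : mnr (mp b (t • p)) x.1 x.2.1 x.2.2.1 x.2.2.2 =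
      t ^ 2 * mnr (mp b p) x.1 x.2.1 x.2.2.1 x.2.2.2 := by
    unfold mnr
    rw [hm, hm, hm, hm]
    ring
  rw [this, abs_mul, abs_of_nonneg (sq_nonneg t)]

theorem FF_pos (b : Fin 3 → Fin 3 → Fin 3 → ℤ) (hb : Rk2 b) {p : Fin 3 → ℝ} (hp : p ≠ 0) :
    0 < FF b p := by
  have hpc : (fun i => ((p i : ℝ) : ℂ)) ≠ (0 : Fin 3 → ℂ) := by
    intro h
    apply hp
    funext i
    have := congrFun h i
    simpa using this
  obtain ⟨k, k', j, j', h⟩ := hb _ hpc
  have hcast : mnr (mp b fun i => ((p i : ℝ) : ℂ)) k k' j j' =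
      ((mnr (mp b p) k k' j j' : ℝ) : ℂ) := by
    unfold mnr mp
    push_cast
    rfl
  rw [hcast] at h
  have h' : mnr (mp b p) k k' j j' ≠ 0 := by
    intro h0
    apply h
    rw [h0]
    simp
  have h1 : 0 < |mnr (mp b p) k k' j j'| := abs_pos.mpr h'
  refine lt_of_lt_of_le h1 ?_
  unfold FF
  exact Finset.single_le_sum
    (f := fun x : Fin 3 × Fin 3 × Fin 3 × Fin 3 => |mnr (mp b p) x.1 x.2.1 x.2.2.1 x.2.2.2|)
    (fun _ _ => abs_nonneg _) (Finset.mem_univ (k, k', j, j'))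

theorem t_CMP : Pool.Agent.W978.QN.S_CMP := by
  intro b hb
  have hcomp : IsCompact (Metric.sphere (0 : Fin 3 → ℝ) 1) := isCompact_sphere _ _
  have hne : (Metric.sphere (0 : Fin 3 → ℝ) 1).Nonempty :=
    NormedSpace.sphere_nonempty.mpr zero_le_one
  obtain ⟨x0, hx0, hmin⟩ := hcomp.exists_isMinOn hne (FF_cont b).continuousOn
  have hx00 : x0 ≠ 0 := by
    rintro rfl
    rw [mem_sphere_zero_iff_norm, norm_zero] at hx0
    exact zero_ne_one hx0
  have hm0 : 0 < FF b x0 := FF_pos b hb hx00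
  refine ⟨FF b x0 / 81, by positivity, ?_⟩
  intro p
  set v : Fin 3 → ℝ := fun i => (p i : ℝ) with hv
  have hge : FF b x0 * ‖v‖ ^ 2 ≤ FF b v := by
    by_cases hv0 : v = 0
    · rw [hv0, norm_zero]
      have := FF_nonneg b 0
      simpa using this
    · have hn : 0 < ‖v‖ := norm_pos_iff.mpr hv0
      have h1 : ‖v‖⁻¹ • v ∈ Metric.sphere (0 : Fin 3 → ℝ) 1 := by
        rw [mem_sphere_zero_iff_norm, norm_smul, norm_inv, norm_norm, inv_mul_cancel₀ hn.ne']
      have h2 : FF b x0 ≤ FF b (‖v‖⁻¹ • v) := hmin h1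
      rw [FF_smul] at h2
      have h3 := mul_le_mul_of_nonneg_right h2 (sq_nonneg ‖v‖)
      have h4 : ‖v‖⁻¹ ^ 2 * FF b v * ‖v‖ ^ 2 = FF b v := by
        field_simp
      rwa [h4] at h3
  have hnm : (nm p : ℝ) ≤ ‖v‖ := by
    have hi : ∀ i, |((p i : ℤ) : ℝ)| ≤ ‖v‖ := fun i => by
      have := norm_le_pi_norm v i
      rwa [Real.norm_eq_abs] at this
    unfold nm
    push_cast
    exact max_le (max_le (hi 0) (hi 1)) (hi 2)
  have hnm0 : (0 : ℝ) ≤ nm p := by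
    have : (0 : ℤ) ≤ nm p := by
      unfold nm
      exact le_max_of_le_right (abs_nonneg _)
    exact_mod_cast this
  have hge2 : FF b x0 * (nm p : ℝ) ^ 2 ≤ FF b v :=
    le_trans (mul_le_mul_of_nonneg_left (pow_le_pow_left₀ hnm0 hnm 2) hm0.le) hge
  by_contra hcon
  push Not at hcon
  have hcast : ∀ k k' j j', ((mnr (mp b p) k k' j j' : ℤ) : ℝ) = mnr (mp b v) k k' j j' := by
    intro k k' j j'
    unfold mnr mp
    push_cast
    rfl
  have hlt : FF b v < ∑ _x : Fin 3 × Fin 3 × Fin 3 × Fin 3, FF b x0 / 81 * (nm p : ℝ) ^ 2 := by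
    unfold FF
    apply Finset.sum_lt_sum_of_nonempty Finset.univ_nonempty
    intro x _
    have := hcon x.1 x.2.1 x.2.2.1 x.2.2.2
    rw [hcast] at this
    exact this
  rw [Finset.sum_const, Finset.card_univ] at hlt
  simp only [Fintype.card_prod, Fintype.card_fin, nsmul_eq_mul] at hlt
  push_cast at hlt
  linarith

end Pool.Agent.W60.QN
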